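import Pool.Agent.Lib.MP_afdd4d_co.K8.EvOne

/-!
# Checks of bases
-/

namespace Pool.Agent.Lib.MP_afdd4d_co.K8

theorem ev1 :
    (part 1 18 reps).all oneE = true ∧
    (part 1 19 reps).all oneE = true ∧
    (part 1 20 reps).all oneE = true ∧
    (part 1 21 reps).all oneE = true ∧
    (part 1 22 reps).all oneE = true ∧
    (part 1 23 reps).all oneE = true ∧
    (part 1 24 reps).all oneE = true ∧
    (part 1 25 reps).all oneE = true ∧
    (part 1 26 reps).all oneE = true ∧
    (part 1 27 reps).all oneE = true ∧
    (part 1 28 reps).all oneE = true ∧
    (part 1 29 reps).all oneE = true ∧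
    (part 1 30 reps).all oneE = true ∧
    (part 1 31 reps).all oneE = true ∧
    (part 1 32 reps).all oneE = true ∧
    (part 1 33 reps).all oneE = true ∧
    (part 1 34 reps).all oneE = true ∧
    (part 1 35 reps).all oneE = true :=
  ⟨by decide +kernel,
   by decide +kernel,
   by decide +kernel,
   by decide +kernel,
   by decide +kernel,
   by decide +kernel,
   by decide +kernel,
   by decide +kernel,
   by decide +kernel,
   by decide +kernel,
   by decide +kernel,
   by decide +kernel,
   by decide +kernel,
   by decide +kernel,
   by decide +kernel,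
   by decide +kernel,
   by decide +kernel,
   by decide +kernel⟩

end Pool.Agent.Lib.MP_afdd4d_co.K8
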