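import Pool.Agent.Lib.MP_afdd4d_co.K8.EvOne

/-!
# Checks of bases
-/

namespace Pool.Agent.Lib.MP_afdd4d_co.K8

theorem ev10 :
    (part 1 180 reps).all oneE = true ∧
    (part 1 181 reps).all oneE = true ∧
    (part 1 182 reps).all oneE = true ∧
    (part 1 183 reps).all oneE = true ∧
    (part 1 184 reps).all oneE = true ∧
    (part 1 185 reps).all oneE = true ∧
    (part 1 186 reps).all oneE = true ∧
    (part 1 187 reps).all oneE = true ∧
    (part 1 188 reps).all oneE = true ∧
    (part 1 189 reps).all oneE = true ∧
    (part 1 190 reps).all oneE = true ∧
    (part 1 191 reps).all oneE = true ∧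
    (part 1 192 reps).all oneE = true ∧
    (part 1 193 reps).all oneE = true ∧
    (part 1 194 reps).all oneE = true ∧
    (part 1 195 reps).all oneE = true ∧
    (part 1 196 reps).all oneE = true ∧
    (part 1 197 reps).all oneE = true :=
  ⟨by decide +kernel,
   by decide +kernel,
   by decide +kernel,
   by decide +kernel,
   by decide +kernel,
   by decide +kernel,
   by decide +kernel,
   by decide +kernel,
   by decide +kernel,
   by decide +kernel,
   by decide +kernel,
   by decide +kernel,
   by decide +kernel,
   by decide +kernel,
   by decide +kernel,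
   by decide +kernel,
   by decide +kernel,
   by decide +kernel⟩

end Pool.Agent.Lib.MP_afdd4d_co.K8
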