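import Pool.Agent.Lib.MP_afdd4d_co.K8.EvOne

/-!
# Checks of bases
-/

namespace Pool.Agent.Lib.MP_afdd4d_co.K8

theorem ev14 :
    (part 1 252 reps).all oneE = true ∧
    (part 1 253 reps).all oneE = true ∧
    (part 1 254 reps).all oneE = true ∧
    (part 1 255 reps).all oneE = true ∧
    (part 1 256 reps).all oneE = true ∧
    (part 1 257 reps).all oneE = true ∧
    (part 1 258 reps).all oneE = true ∧
    (part 1 259 reps).all oneE = true ∧
    (part 1 260 reps).all oneE = true ∧
    (part 1 261 reps).all oneE = true ∧
    (part 1 262 reps).all oneE = true ∧
    (part 1 263 reps).all oneE = true ∧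
    (part 1 264 reps).all oneE = true ∧
    (part 1 265 reps).all oneE = true ∧
    (part 1 266 reps).all oneE = true ∧
    (part 1 267 reps).all oneE = true ∧
    (part 1 268 reps).all oneE = true ∧
    (part 1 269 reps).all oneE = true :=
  ⟨by decide +kernel,
   by decide +kernel,
   by decide +kernel,
   by decide +kernel,
   by decide +kernel,
   by decide +kernel,
   by decide +kernel,
   by decide +kernel,
   by decide +kernel,
   by decide +kernel,
   by decide +kernel,
   by decide +kernel,
   by decide +kernel,
   by decide +kernel,
   by decide +kernel,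
   by decide +kernel,
   by decide +kernel,
   by decide +kernel⟩

end Pool.Agent.Lib.MP_afdd4d_co.K8
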