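import Pool.Agent.Lib.MP_afdd4d_co.K8.EvOne

/-!
# Checks of bases
-/

namespace Pool.Agent.Lib.MP_afdd4d_co.K8

theorem ev17 :
    (part 1 306 reps).all oneE = true ∧
    (part 1 307 reps).all oneE = true ∧
    (part 1 308 reps).all oneE = true ∧
    (part 1 309 reps).all oneE = true ∧
    (part 1 310 reps).all oneE = true ∧
    (part 1 311 reps).all oneE = true ∧
    (part 1 312 reps).all oneE = true ∧
    (part 1 313 reps).all oneE = true ∧
    (part 1 314 reps).all oneE = true ∧
    (part 1 315 reps).all oneE = true ∧
    (part 1 316 reps).all oneE = true ∧
    (part 1 317 reps).all oneE = true ∧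
    (part 1 318 reps).all oneE = true ∧
    (part 1 319 reps).all oneE = true ∧
    (part 1 320 reps).all oneE = true ∧
    (part 1 321 reps).all oneE = true ∧
    (part 1 322 reps).all oneE = true ∧
    (part 1 323 reps).all oneE = true :=
  ⟨by decide +kernel,
   by decide +kernel,
   by decide +kernel,
   by decide +kernel,
   by decide +kernel,
   by decide +kernel,
   by decide +kernel,
   by decide +kernel,
   by decide +kernel,
   by decide +kernel,
   by decide +kernel,
   by decide +kernel,
   by decide +kernel,
   by decide +kernel,
   by decide +kernel,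
   by decide +kernel,
   by decide +kernel,
   by decide +kernel⟩

end Pool.Agent.Lib.MP_afdd4d_co.K8
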