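import Pool.Agent.Lib.MP_afdd4d_co.K8.EvOne

/-!
# Checks of bases
-/

namespace Pool.Agent.Lib.MP_afdd4d_co.K8

theorem ev19 :
    (part 1 342 reps).all oneE = true ∧
    (part 1 343 reps).all oneE = true ∧
    (part 1 344 reps).all oneE = true ∧
    (part 1 345 reps).all oneE = true ∧
    (part 1 346 reps).all oneE = true ∧
    (part 1 347 reps).all oneE = true ∧
    (part 1 348 reps).all oneE = true ∧
    (part 1 349 reps).all oneE = true ∧
    (part 1 350 reps).all oneE = true ∧
    (part 1 351 reps).all oneE = true ∧
    (part 1 352 reps).all oneE = true ∧
    (part 1 353 reps).all oneE = true ∧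
    (part 1 354 reps).all oneE = true ∧
    (part 1 355 reps).all oneE = true ∧
    (part 1 356 reps).all oneE = true ∧
    (part 1 357 reps).all oneE = true ∧
    (part 1 358 reps).all oneE = true ∧
    (part 1 359 reps).all oneE = true :=
  ⟨by decide +kernel,
   by decide +kernel,
   by decide +kernel,
   by decide +kernel,
   by decide +kernel,
   by decide +kernel,
   by decide +kernel,
   by decide +kernel,
   by decide +kernel,
   by decide +kernel,
   by decide +kernel,
   by decide +kernel,
   by decide +kernel,
   by decide +kernel,
   by decide +kernel,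
   by decide +kernel,
   by decide +kernel,
   by decide +kernel⟩

end Pool.Agent.Lib.MP_afdd4d_co.K8
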