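import Pool.Agent.Lib.MP_afdd4d_co.K8.EvOne

/-!
# Checks of bases
-/

namespace Pool.Agent.Lib.MP_afdd4d_co.K8

theorem ev21 :
    (part 1 378 reps).all oneE = true ∧
    (part 1 379 reps).all oneE = true ∧
    (part 1 380 reps).all oneE = true ∧
    (part 1 381 reps).all oneE = true ∧
    (part 1 382 reps).all oneE = true ∧
    (part 1 383 reps).all oneE = true ∧
    (part 1 384 reps).all oneE = true ∧
    (part 1 385 reps).all oneE = true ∧
    (part 1 386 reps).all oneE = true ∧
    (part 1 387 reps).all oneE = true ∧
    (part 1 388 reps).all oneE = true ∧
    (part 1 389 reps).all oneE = true ∧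
    (part 1 390 reps).all oneE = true ∧
    (part 1 391 reps).all oneE = true ∧
    (part 1 392 reps).all oneE = true ∧
    (part 1 393 reps).all oneE = true ∧
    (part 1 394 reps).all oneE = true ∧
    (part 1 395 reps).all oneE = true :=
  ⟨by decide +kernel,
   by decide +kernel,
   by decide +kernel,
   by decide +kernel,
   by decide +kernel,
   by decide +kernel,
   by decide +kernel,
   by decide +kernel,
   by decide +kernel,
   by decide +kernel,
   by decide +kernel,
   by decide +kernel,
   by decide +kernel,
   by decide +kernel,
   by decide +kernel,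
   by decide +kernel,
   by decide +kernel,
   by decide +kernel⟩

end Pool.Agent.Lib.MP_afdd4d_co.K8
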