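import Pool.Agent.Lib.MP_afdd4d_co.K8.EvOne

/-!
# Checks of bases
-/

namespace Pool.Agent.Lib.MP_afdd4d_co.K8

theorem ev22 :
    (part 1 396 reps).all oneE = true ∧
    (part 1 397 reps).all oneE = true ∧
    (part 1 398 reps).all oneE = true ∧
    (part 1 399 reps).all oneE = true ∧
    (part 1 400 reps).all oneE = true ∧
    (part 1 401 reps).all oneE = true ∧
    (part 1 402 reps).all oneE = true ∧
    (part 1 403 reps).all oneE = true ∧
    (part 1 404 reps).all oneE = true ∧
    (part 1 405 reps).all oneE = true ∧
    (part 1 406 reps).all oneE = true ∧
    (part 1 407 reps).all oneE = true ∧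
    (part 1 408 reps).all oneE = true ∧
    (part 1 409 reps).all oneE = true ∧
    (part 1 410 reps).all oneE = true ∧
    (part 1 411 reps).all oneE = true ∧
    (part 1 412 reps).all oneE = true ∧
    (part 1 413 reps).all oneE = true :=
  ⟨by decide +kernel,
   by decide +kernel,
   by decide +kernel,
   by decide +kernel,
   by decide +kernel,
   by decide +kernel,
   by decide +kernel,
   by decide +kernel,
   by decide +kernel,
   by decide +kernel,
   by decide +kernel,
   by decide +kernel,
   by decide +kernel,
   by decide +kernel,
   by decide +kernel,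
   by decide +kernel,
   by decide +kernel,
   by decide +kernel⟩

end Pool.Agent.Lib.MP_afdd4d_co.K8
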