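import Pool.Agent.Lib.MP_afdd4d_co.K8.EvOne

/-!
# Checks of bases
-/

namespace Pool.Agent.Lib.MP_afdd4d_co.K8

theorem ev6 :
    (part 1 108 reps).all oneE = true ∧
    (part 1 109 reps).all oneE = true ∧
    (part 1 110 reps).all oneE = true ∧
    (part 1 111 reps).all oneE = true ∧
    (part 1 112 reps).all oneE = true ∧
    (part 1 113 reps).all oneE = true ∧
    (part 1 114 reps).all oneE = true ∧
    (part 1 115 reps).all oneE = true ∧
    (part 1 116 reps).all oneE = true ∧
    (part 1 117 reps).all oneE = true ∧
    (part 1 118 reps).all oneE = true ∧
    (part 1 119 reps).all oneE = true ∧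
    (part 1 120 reps).all oneE = true ∧
    (part 1 121 reps).all oneE = true ∧
    (part 1 122 reps).all oneE = true ∧
    (part 1 123 reps).all oneE = true ∧
    (part 1 124 reps).all oneE = true ∧
    (part 1 125 reps).all oneE = true :=
  ⟨by decide +kernel,
   by decide +kernel,
   by decide +kernel,
   by decide +kernel,
   by decide +kernel,
   by decide +kernel,
   by decide +kernel,
   by decide +kernel,
   by decide +kernel,
   by decide +kernel,
   by decide +kernel,
   by decide +kernel,
   by decide +kernel,
   by decide +kernel,
   by decide +kernel,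
   by decide +kernel,
   by decide +kernel,
   by decide +kernel⟩

end Pool.Agent.Lib.MP_afdd4d_co.K8
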