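import Pool.Agent.Lib.MP_afdd4d_co.K8.EvOne

/-!
# Checks of bases
-/

namespace Pool.Agent.Lib.MP_afdd4d_co.K8

theorem ev7 :
    (part 1 126 reps).all oneE = true ∧
    (part 1 127 reps).all oneE = true ∧
    (part 1 128 reps).all oneE = true ∧
    (part 1 129 reps).all oneE = true ∧
    (part 1 130 reps).all oneE = true ∧
    (part 1 131 reps).all oneE = true ∧
    (part 1 132 reps).all oneE = true ∧
    (part 1 133 reps).all oneE = true ∧
    (part 1 134 reps).all oneE = true ∧
    (part 1 135 reps).all oneE = true ∧
    (part 1 136 reps).all oneE = true ∧
    (part 1 137 reps).all oneE = true ∧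
    (part 1 138 reps).all oneE = true ∧
    (part 1 139 reps).all oneE = true ∧
    (part 1 140 reps).all oneE = true ∧
    (part 1 141 reps).all oneE = true ∧
    (part 1 142 reps).all oneE = true ∧
    (part 1 143 reps).all oneE = true :=
  ⟨by decide +kernel,
   by decide +kernel,
   by decide +kernel,
   by decide +kernel,
   by decide +kernel,
   by decide +kernel,
   by decide +kernel,
   by decide +kernel,
   by decide +kernel,
   by decide +kernel,
   by decide +kernel,
   by decide +kernel,
   by decide +kernel,
   by decide +kernel,
   by decide +kernel,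
   by decide +kernel,
   by decide +kernel,
   by decide +kernel⟩

end Pool.Agent.Lib.MP_afdd4d_co.K8
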